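import Mathlib
import Pool.Agent.Helper36.SPR.St

/-!
Module OR of project SPR: the collision probability of one difference of powers of two.
-/

set_option autoImplicit false

namespace Pool.Agent.Helper60.SPR

open Finset
open Pool.Agent.Helper36.SPR

theorem hOR : StOR := by
  intro n T _ hT h2
  have hu : IsUnit (2 : ZMod n) := IsUnit.of_pow_eq_one h2 hT.ne'
  obtain ⟨u, hu⟩ := hu
  have huT : u ^ T = 1 := by
    apply Units.ext
    rw [Units.val_pow_eq_pow_val, hu, h2, Units.val_one]
  have hord : orderOf (2 : ZMod n) = orderOf u := by rw [← hu, orderOf_units]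
  have hdvd : orderOf u ∣ T := orderOf_dvd_of_pow_eq_one huT
  have hpos : 0 < orderOf u := Nat.pos_of_dvd_of_pos hdvd hT
  have key : ∀ i : ℕ, ((range T).filter (fun i' => (0 : ZMod n) - 2 ^ i + 2 ^ i' = 0)).card
      = T / orderOf u := by
    intro i
    have e1 : ∀ i' : ℕ, ((0 : ZMod n) - 2 ^ i + 2 ^ i' = 0) ↔ i' ≡ i [MOD orderOf u] := by
      intro i'
      rw [← pow_eq_pow_iff_modEq (x := u)]
      constructor
      · intro h
        apply Units.ext
        rw [Units.val_pow_eq_pow_val, Units.val_pow_eq_pow_val, hu]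
        linear_combination h
      · intro h
        have h' : (2 : ZMod n) ^ i' = 2 ^ i := by
          rw [← hu, ← Units.val_pow_eq_pow_val, ← Units.val_pow_eq_pow_val, h]
        rw [h']
        ring
    rw [Finset.filter_congr (fun i' _ => e1 i'), ← Nat.count_eq_card_filter_range,
      Nat.count_modEq_card _ hpos]
    have h0 : T % orderOf u = 0 := Nat.mod_eq_zero_of_dvd hdvd
    rw [h0]
    simp
  have hsum : ∑ i ∈ range T, ∑ i' ∈ range T, nu n T 0 ((0 : ZMod n) - 2 ^ i + 2 ^ i')
      = (T : ℝ) * (T / orderOf u : ℕ) := by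
    have : ∀ i ∈ range T, ∑ i' ∈ range T, nu n T 0 ((0 : ZMod n) - 2 ^ i + 2 ^ i')
        = ((T / orderOf u : ℕ) : ℝ) := by
      intro i _
      rw [← key i, Finset.card_filter, Nat.cast_sum]
      refine Finset.sum_congr rfl fun i' _ => ?_
      simp [nu]
    rw [Finset.sum_congr rfl this, Finset.sum_const, card_range, nsmul_eq_mul]
  have hb : bet n T 1 = (∑ i ∈ range T, ∑ i' ∈ range T,
      nu n T 0 ((0 : ZMod n) - 2 ^ i + 2 ^ i')) / (T : ℝ) ^ 2 := by
    unfold bet
    rfl
  have hT' : (T : ℝ) ≠ 0 := by positivity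
  have ho' : (orderOf u : ℝ) ≠ 0 := by positivity
  rw [hb, hsum, hord, Nat.cast_div hdvd ho']
  field_simp

end Pool.Agent.Helper60.SPR
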